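import Pool.Agent.helper57.refl.Final
import Pool.Agent.helper57.p19.SoundA
import Pool.Agent.helper57.p19.SoundB

/-!
# Steiner points can lower the reflexivity of a planar point set to less than one half

A set `P` of 19 points with reflexivity at least `5` and a set `S` of 2 points in the interior of its convex
hull such that `P ∪ S` has a polygonization with two reflex vertices.
-/

namespace Pool.Agent.Results.MP_d63fc1_co.HalfConjectureFails

open Pool.Agent.H57 Pool.Agent.H57.Refl

/-- a simple polygon whose vertex set is `P` -/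
def polyP : List (ℤ × ℤ) := [(-1608, 1719), (-93, -162), (197, -49), (282, 5), (297, 76), (320, 265), (291, 328), (643, 386), (523, 237), (665, 373), (648, 334), (1475, -168), (820, 737), (475, 498), (473, 411), (394, 440), (380, 444), (343, 416), (310, 362)]

/-- a simple polygon with two reflex vertices whose vertex set is `P ∪ S` -/
def polyQ : List (ℤ × ℤ) := [(-93, -162), (197, -49), (282, 5), (297, 76), (320, 265), (291, 328), (-604, 1244), (475, 498), (643, 386), (665, 373), (1311, 3), (648, 334), (473, 411), (394, 440), (380, 444), (343, 416), (310, 362), (523, 237), (1475, -168), (820, 737), (-1608, 1719)]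

/-- the Steiner points -/
def steiner : List (ℤ × ℤ) := [(-604, 1244), (1311, 3)]

/-- the extreme points of `P` -/
def extreme : List (ℤ × ℤ) := [(-1608, 1719), (-93, -162), (1475, -168), (820, 737)]

/-- There are a point set `P` and a finite set `S` of points in the interior of the convex hull of `P`, disjoint
from `P`, such that `ρ(P) ≥ 5` and `ρ(P ∪ S) ≤ 2`; in particular `ρ(P ∪ S) < ρ(P) / 2`. -/
theorem result :
    ∃ P S : Finset (ℝ × ℝ), 3 ≤ P.card ∧ ¬ Collinear ℝ (P : Set (ℝ × ℝ)) ∧ Disjoint P S ∧
      (∀ q ∈ S, q ∈ interior (convexHull ℝ (P : Set (ℝ × ℝ)))) ∧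
      rho (↑(P ∪ S)) ≤ 2 ∧ 5 ≤ rho (↑P) ∧ (rho (↑(P ∪ S)) : ℝ) < (rho ↑P : ℝ) / 2 :=
  assemble5_idx 19 P19.pts polyP polyQ steiner extreme (by decide +kernel) (by decide +kernel)
    (five_le_reflexCount 19 18 P19.pts (by decide) (by decide) (gpB_spec (by decide +kernel)) P19.A.low P19.B.low)

end Pool.Agent.Results.MP_d63fc1_co.HalfConjectureFails
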